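import Pool.Agent.Helper57.SS.Goals

/-! Packet SS-WH of MP_9a4587_an. -/

set_option autoImplicit false

namespace Pool.Agent.Helper26.SS

open MeasureTheory ProbabilityTheory Filter Topology
open Pool.Agent.Helper57.SS Pool.Agent.Helper49.RS

theorem e2_ex (m n : ℕ) (s t : ℝ) :
    e2 ((m : ℤ), (n : ℤ)) (((s : ℝ) : UnitAddCircle), ((t : ℝ) : UnitAddCircle)) = ex s t m n := by
  unfold e2 ex
  simp only [fourier_coe_apply]
  rw [← Complex.exp_add]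
  congr 1
  push_cast
  ring

theorem detPart (a' : ℕ → ℕ) (p : ℕ → Prop) [DecidablePred p] (b : ℝ) (hp : (Set.ofPred p).Infinite)
    (hWR : G_WR) (c : ℝ) (hc : 0 < c)
    (hcnt : ∀ᶠ M : ℕ in atTop, c * (M : ℝ) ^ (1 - b) ≤ Nat.count p M) (s t : ℝ)
    (h1 : ∀ ε : ℝ, 0 < ε → ∀ᶠ M : ℕ in atTop,
      ‖∑ n ∈ Finset.range M, (((ind p n - prb b n : ℝ)) : ℂ) * ex s t (a' (Nat.count p n)) (n + 1)‖ ≤
        ε * (M : ℝ) ^ (1 - b))
    (h2 : ∀ ε : ℝ, 0 < ε → ∀ᶠ M : ℕ in atTop,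
      ‖∑ n ∈ Finset.range M, ((prb b n : ℝ) : ℂ) * ex s t (a' (Nat.count p n)) (n + 1)‖ ≤
        ε * Nat.count p M) :
    Tendsto (fun N : ℕ => (N : ℂ)⁻¹ * ∑ k ∈ Finset.range N, ex s t (a' k) (Nat.nth p k + 1)) atTop
      (𝓝 0) := by
  rw [Metric.tendsto_atTop]
  intro ε hε
  set ε1 : ℝ := min (ε * c / 4) (ε / 4) with hε1
  have hε1p : 0 < ε1 := by rw [hε1]; positivity
  have e1 := h1 ε1 hε1p
  have e2' := h2 ε1 hε1p
  have hmono : Tendsto (fun K : ℕ => Nat.nth p K) atTop atTop :=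
    (Nat.nth_strictMono hp).tendsto_atTop
  have hall := hmono.eventually (e1.and (e2'.and hcnt))
  obtain ⟨K0, hK0⟩ := eventually_atTop.1 hall
  refine ⟨max K0 1, fun K hK => ?_⟩
  obtain ⟨f1, f2, f3⟩ := hK0 K (le_trans (le_max_left _ _) hK)
  have hK1 : 1 ≤ K := le_trans (le_max_right _ _) hK
  have hKr : (0 : ℝ) < K := by exact_mod_cast hK1
  have hcK : Nat.count p (Nat.nth p K) = K := Nat.count_nth_of_infinite hp K
  have hR := hWR p a' hp s t (Nat.nth p K)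
  rw [hcK] at hR f2 f3
  rw [dist_zero_right, ← hR, norm_mul, norm_inv, Complex.norm_natCast]
  have hsplit : ∑ n ∈ Finset.range (Nat.nth p K), ((ind p n : ℝ) : ℂ) * ex s t (a' (Nat.count p n)) (n + 1)
      = ∑ n ∈ Finset.range (Nat.nth p K), (((ind p n - prb b n : ℝ)) : ℂ) *
          ex s t (a' (Nat.count p n)) (n + 1) +
        ∑ n ∈ Finset.range (Nat.nth p K), ((prb b n : ℝ) : ℂ) * ex s t (a' (Nat.count p n)) (n + 1) := by
    rw [← Finset.sum_add_distrib]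
    refine Finset.sum_congr rfl fun n _ => ?_
    push_cast
    ring
  rw [hsplit]
  have hx : (((Nat.nth p K : ℕ) : ℝ)) ^ (1 - b) ≤ (K : ℝ) / c := by
    rw [le_div_iff₀ hc]; linarith
  have hle1 : ε1 ≤ ε * c / 4 := min_le_left _ _
  have hle2 : ε1 ≤ ε / 4 := min_le_right _ _
  have hxn : (0 : ℝ) ≤ (((Nat.nth p K : ℕ) : ℝ)) ^ (1 - b) := by positivity
  have hb1 : ε1 * (((Nat.nth p K : ℕ) : ℝ)) ^ (1 - b) ≤ ε * K / 4 := by
    calc ε1 * (((Nat.nth p K : ℕ) : ℝ)) ^ (1 - b) ≤ (ε * c / 4) * ((K : ℝ) / c) :=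
          mul_le_mul hle1 hx hxn (by positivity)
      _ = ε * K / 4 := by field_simp
  have hb2 : ε1 * (K : ℝ) ≤ ε * K / 4 := by
    calc ε1 * (K : ℝ) ≤ (ε / 4) * K := mul_le_mul_of_nonneg_right hle2 hKr.le
      _ = ε * K / 4 := by ring
  have htot : ‖∑ n ∈ Finset.range (Nat.nth p K), (((ind p n - prb b n : ℝ)) : ℂ) *
          ex s t (a' (Nat.count p n)) (n + 1) +
        ∑ n ∈ Finset.range (Nat.nth p K), ((prb b n : ℝ) : ℂ) * ex s t (a' (Nat.count p n)) (n + 1)‖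
      ≤ ε * K / 2 := by
    refine (norm_add_le _ _).trans ?_
    linarith
  calc (K : ℝ)⁻¹ * _ ≤ (K : ℝ)⁻¹ * (ε * K / 2) := by
        exact mul_le_mul_of_nonneg_left htot (by positivity)
    _ = ε / 2 := by field_simp
    _ < ε := by linarith

theorem meas_A {Ω : Type} [MeasurableSpace Ω] (ξ η : ℕ → Ω → ℕ) (n : ℕ) :
    Measurable[pastF η ξ n] (fun ω => bt (pr η ω) (pr ξ ω) n + 1) := by
  have h := @meas_bt Ω (pastF η ξ n) η ξ n (fun m hm => past_meas_inl η ξ n m hm)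
    (fun m => past_meas_inr η ξ n m)
  exact (Measurable.of_discrete (f := fun k : ℕ => k + 1)).comp h

theorem gWH : G_WH := by
  intro hWC hWG hWR hWS a b ha0 ha1 hb0 hb1 Ω _ P _ ξ η hM
  obtain ⟨hξ, hη, hind, hp, hq⟩ := hM
  have hind' : iIndepFun (fun i : ℕ ⊕ ℕ => Sum.elim η ξ i) P := by
    have := hind.precomp (g := Sum.swap) (Equiv.sumComm ℕ ℕ).injective
    convert this using 2 with i
    rcases i with i | i <;> rfl
  have PB1 := predBern_of ξ η hξ hη hind a ha0.le hp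
  have PB2 := predBern_of η ξ hη hξ hind' b hb0.le hq
  have g1 := hWG a ha0 ha1 Ω P ξ _ PB1
  have g2 := hWG b hb0 hb1 Ω P η _ PB2
  have g3 := hWC b hb0 hb1 Ω P (fun n ω => ind (pr η ω) n) (pastF η ξ)
    (fun n ω => bt (pr η ω) (pr ξ ω) n + 1) PB2 (fun n => meas_A ξ η n)
  filter_upwards [g1, g2, g3] with ω w1 w2 w3
  obtain ⟨i1, -, D, hD⟩ := w1
  obtain ⟨i2, ⟨c, hc, hcnt⟩, -⟩ := w2
  refine ⟨i1, i2, ?_⟩
  have hgrow : ∀ᶠ M : ℕ in atTop, ∀ n < M, bt (pr η ω) (pr ξ ω) n + 1 ≤ M ^ D := by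
    filter_upwards [hD] with M hM n hn
    refine le_trans ?_ hM
    have h1 : Nat.count (pr η ω) n ≤ M := (Nat.count_le _).trans hn.le
    have h2 : Nat.nth (pr ξ ω) (Nat.count (pr η ω) n) ≤ Nat.nth (pr ξ ω) M :=
      Nat.nth_monotone i1 h1
    unfold bt
    omega
  have hC := w3 D hgrow
  rintro ⟨zs, zt⟩ hz
  obtain ⟨s, rfl⟩ := QuotientAddGroup.mk_surjective zs
  obtain ⟨t, rfl⟩ := QuotientAddGroup.mk_surjective zt
  have ht : ¬ ∃ m : ℤ, t = m := by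
    rintro ⟨m, rfl⟩
    apply hz
    show (((m : ℝ)) : UnitAddCircle) = 0
    rw [AddCircle.coe_eq_zero_iff]
    exact ⟨m, by simp⟩
  have hS := fun ε hε => hWS (pr η ω) (fun k => Nat.nth (pr ξ ω) k + 1) b hb0 i2 s t ht ε hε
  have hd := detPart (fun k => Nat.nth (pr ξ ω) k + 1) (pr η ω) b i2 hWR c hc hcnt s t
    (fun ε hε => (hC ε hε).mono fun M hM => hM s t) hS
  refine hd.congr fun N => ?_
  congr 1
  refine Finset.sum_congr rfl fun k _ => ?_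
  exact (e2_ex _ _ s t).symm

end Pool.Agent.Helper26.SS
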